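import Pool.Agent.CMG.Stmts

/-!
# KLE (MP_005a41_gt, squad CMG): a completely metrizable precompact group is compact
-/

set_option autoImplicit false

namespace Pool.Agent.CMG.H10

open Set Topology Filter
open Pool.Agent.LSG Pool.Agent.CMG
open scoped Pointwise

theorem left_small {H : Type} [Group H] [TopologicalSpace H] [IsTopologicalGroup H]
    (hpc : ∀ U ∈ nhds (1 : H), ∃ F : Finset H, (⋃ g ∈ F, g • U) = Set.univ)
    (f : Ultrafilter H) (U : Set H) (hU : U ∈ nhds (1 : H)) :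
    ∃ A ∈ f, ∀ a ∈ A, ∀ a' ∈ A, a⁻¹ * a' ∈ U := by
  have hc : Continuous fun q : H × H => q.1⁻¹ * q.2 := by fun_prop
  have h1 : (fun q : H × H => q.1⁻¹ * q.2) ⁻¹' U ∈ nhds ((1 : H), (1 : H)) := by
    apply hc.continuousAt.preimage_mem_nhds
    rw [inv_one, mul_one]
    exact hU
  rw [nhds_prod_eq, Filter.mem_prod_same_iff] at h1
  obtain ⟨V, hV, hVU⟩ := h1
  obtain ⟨F, hF⟩ := hpc V hV
  have h2 : (⋃ g ∈ F, g • V) ∈ (f : Filter H) := by
    rw [hF]
    exact Filter.univ_mem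
  have h3 : ∃ g ∈ F, g • V ∈ f := by
    have h4 := (Ultrafilter.finite_biUnion_mem_iff (f := f) F.finite_toSet
      (s := fun g => g • V)).mp h2
    exact h4
  obtain ⟨g, -, hg⟩ := h3
  refine ⟨g • V, hg, ?_⟩
  rintro _ ⟨v, hv, rfl⟩ _ ⟨v', hv', rfl⟩
  have h5 : (g • v)⁻¹ * (g • v') = v⁻¹ * v' := by
    rw [smul_eq_mul, smul_eq_mul]
    group
  show (g • v)⁻¹ * (g • v') ∈ U
  rw [h5]
  exact hVU (mk_mem_prod hv hv')

theorem right_small {H : Type} [Group H] [TopologicalSpace H] [IsTopologicalGroup H]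
    (hpc : ∀ U ∈ nhds (1 : H), ∃ F : Finset H, (⋃ g ∈ F, g • U) = Set.univ)
    (f : Ultrafilter H) (U : Set H) (hU : U ∈ nhds (1 : H)) :
    ∃ A ∈ f, ∀ a ∈ A, ∀ a' ∈ A, a * a'⁻¹ ∈ U := by
  obtain ⟨A, hA, h⟩ := left_small hpc (f.map fun x => x⁻¹) U hU
  refine ⟨(fun x => x⁻¹) ⁻¹' A, hA, fun a ha a' ha' => ?_⟩
  have h1 := h a⁻¹ ha a'⁻¹ ha'
  rwa [inv_inv] at h1

theorem kle : KleStmt := by
  classical
  intro H _ _ _ _ hpc
  letI := TopologicalSpace.upgradeIsCompletelyMetrizable H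
  rw [← isCompact_univ_iff, isCompact_iff_ultrafilter_le_nhds]
  intro f _
  let V : ℕ → Set H := fun n => ⋃₀ {W | IsOpen W ∧ ∃ A ∈ f, ∀ a ∈ A, ∀ a' ∈ A, ∀ w ∈ W,
    ∀ w' ∈ W, dist (a * w) (a' * w') < 1 / ((n : ℝ) + 1)}
  have hVo : ∀ n, IsOpen (V n) := fun n => isOpen_sUnion fun W hW => hW.1
  have hVd : ∀ n, Dense (V n) := by
    intro n
    rw [dense_iff_inter_open]
    rintro N hN ⟨y0, hy0⟩
    have hU : {u : H | u * y0 ∈ N} ∈ nhds (1 : H) := by
      have hc : Continuous fun u : H => u * y0 := continuous_mul_right y0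
      apply hc.continuousAt.preimage_mem_nhds
      rw [one_mul]
      exact hN.mem_nhds hy0
    obtain ⟨A0, hA0, h0⟩ := left_small hpc f _ hU
    obtain ⟨a0, ha0⟩ := Ultrafilter.nonempty_of_mem hA0
    obtain ⟨h, hh⟩ : ∃ h : H, h = a0 * y0 := ⟨_, rfl⟩
    have hB : {v : H | v * h ∈ Metric.ball h (1 / ((n : ℝ) + 1) / 2)} ∈ nhds (1 : H) := by
      have hc : Continuous fun u : H => u * h := continuous_mul_right h
      apply hc.continuousAt.preimage_mem_nhds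
      rw [one_mul]
      exact Metric.ball_mem_nhds _ (by positivity)
    obtain ⟨V', hV'o, hV'1, hV'⟩ := exists_open_nhds_one_split hB
    obtain ⟨A1', hA1', h1⟩ := right_small hpc f V' (hV'o.mem_nhds hV'1)
    have hA1 : A0 ∩ A1' ∈ f := Filter.inter_mem hA0 hA1'
    obtain ⟨a1, ha1⟩ := Ultrafilter.nonempty_of_mem hA1
    refine ⟨a1⁻¹ * h, ?_, ?_⟩
    · have h2 : a1⁻¹ * h = (a1⁻¹ * a0) * y0 := by rw [hh, mul_assoc]
      rw [h2]
      exact h0 a1 ha1.1 a0 ha0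
    · refine mem_sUnion.mpr ⟨{w : H | a1 * w * h⁻¹ ∈ V'}, ⟨?_, A0 ∩ A1', hA1, ?_⟩, ?_⟩
      · have hc : Continuous fun w : H => a1 * w * h⁻¹ := by fun_prop
        exact hV'o.preimage hc
      · intro a ha a' ha' w hw w' hw'
        have h3 : ∀ b ∈ A0 ∩ A1', ∀ z : H, a1 * z * h⁻¹ ∈ V' →
            dist (b * z) h < 1 / ((n : ℝ) + 1) / 2 := by
          intro b hb z hz
          have h4 := hV' (b * a1⁻¹) (h1 b hb.2 a1 ha1.2) (a1 * z * h⁻¹) hz
          have h5 : b * a1⁻¹ * (a1 * z * h⁻¹) * h = b * z := by group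
          have h6 : b * a1⁻¹ * (a1 * z * h⁻¹) * h ∈ Metric.ball h (1 / ((n : ℝ) + 1) / 2) := h4
          rw [h5] at h6
          exact h6
        have h7 := h3 a ha w hw
        have h8 := h3 a' ha' w' hw'
        have h9 := dist_triangle_right (a * w) (a' * w') h
        linarith
      · show a1 * (a1⁻¹ * h) * h⁻¹ ∈ V'
        have h10 : a1 * (a1⁻¹ * h) * h⁻¹ = 1 := by group
        rw [h10]
        exact hV'1
  have hne : (⋂ n, V n).Nonempty := (dense_iInter_of_isOpen_nat hVo hVd).nonempty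
  obtain ⟨y, hy⟩ := hne
  have hcau : Cauchy (Filter.map (fun x => x * y) (f : Filter H)) := by
    rw [Metric.cauchy_iff]
    refine ⟨inferInstance, fun ε hε => ?_⟩
    obtain ⟨n, hn⟩ := exists_nat_one_div_lt hε
    obtain ⟨W, ⟨-, A, hA, h⟩, hyW⟩ := mem_sUnion.mp (mem_iInter.mp hy n)
    refine ⟨(fun x => x * y) '' A, Filter.image_mem_map hA, ?_⟩
    rintro _ ⟨a, ha, rfl⟩ _ ⟨a', ha', rfl⟩
    exact (h a ha a' ha' y hyW y hyW).trans hn
  obtain ⟨z, hz⟩ := CompleteSpace.complete hcau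
  refine ⟨z * y⁻¹, mem_univ _, ?_⟩
  have h1 : (f : Filter H) = Filter.map (fun x => x * y⁻¹)
      (Filter.map (fun x => x * y) (f : Filter H)) := by
    rw [Filter.map_map]
    have h2 : (fun x : H => x * y⁻¹) ∘ (fun x => x * y) = id := by
      funext x
      show x * y * y⁻¹ = x
      rw [mul_inv_cancel_right]
    rw [h2, Filter.map_id]
  rw [h1]
  exact (Filter.map_mono hz).trans (continuous_mul_right y⁻¹).continuousAt

end Pool.Agent.CMG.H10
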